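import Pool.Agent.Run7.h207.GC.All

set_option autoImplicit false

/-!
# The positive semidefinite graph complement conjecture for almost all graphs

Project of helper207 with helpers 834, 227, 11, 344, 704, 382, 379, 547, 194, 590, 354.
-/

namespace Pool.Agent.Results.MP_a2d8aa_co.AlmostAllGraphs

open Filter Topology

/-- `S₊(G)`: the real positive semidefinite matrices whose off-diagonal nonzero pattern is exactly
the edge set of `G`; the diagonal is unrestricted. -/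
def SPlus {n : ℕ} (G : SimpleGraph (Fin n)) : Set (Matrix (Fin n) (Fin n) ℝ) :=
  {A | A.PosSemidef ∧ ∀ i j : Fin n, i ≠ j → (A i j ≠ 0 ↔ G.Adj i j)}

/-- The positive semidefinite minimum rank `mr₊(G)`. -/
noncomputable def mrPlus {n : ℕ} (G : SimpleGraph (Fin n)) : ℕ :=
  sInf {k : ℕ | ∃ A ∈ SPlus G, A.rank = k}

theorem mrPlus_le {n : ℕ} {G : SimpleGraph (Fin n)} {r : ℕ}
    (h : Pool.Agent.Y404.GccSap.HasSap G r) : mrPlus G ≤ r := by
  obtain ⟨A, h1, h2, _, h4⟩ := h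
  have h5 : mrPlus G ≤ A.rank := Nat.sInf_le ⟨A, ⟨h1, h2⟩, rfl⟩
  exact h5.trans h4

/-- For every `C`, the proportion of the labelled graphs `G` on `n` vertices that satisfy
`mr₊(G) + mr₊(Ḡ) ≤ n - C √n` tends to `1`. -/
theorem result (C : ℝ) : Tendsto (fun n : ℕ =>
    ({G : SimpleGraph (Fin n) | (mrPlus G : ℝ) + mrPlus Gᶜ ≤ (n : ℝ) - C * √n}.ncard : ℝ) /
      (Nat.card (SimpleGraph (Fin n)) : ℝ)) atTop (𝓝 1) := by
  refine Pool.Agent.Run7.h207.GC.tendsto_of_AA Pool.Agent.Run7.h207.GC.aa (C / 2)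
    (fun n G => (mrPlus G : ℝ) + mrPlus Gᶜ ≤ (n : ℝ) - C * √n) ?_
  intro n G d hd h1 h2
  have h3 : (mrPlus G : ℝ) ≤ d := by exact_mod_cast mrPlus_le h1
  have h4 : (mrPlus Gᶜ : ℝ) ≤ d := by exact_mod_cast mrPlus_le h2
  show (mrPlus G : ℝ) + mrPlus Gᶜ ≤ (n : ℝ) - C * √n
  linarith

end Pool.Agent.Results.MP_a2d8aa_co.AlmostAllGraphs
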